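import Mathlib
import Pool.Agent.H637R4.Many.Dense
import Pool.Agent.H637R4.Many.Sharp

set_option autoImplicit false

namespace Pool.Agent.Results.MP_caa27d_co.DenseFamilies

/-- Many abundant elements in dense union-closed families. -/
theorem result :
    (∀ (k : ℕ) (A : Finset (Finset ℕ)), (∀ X ∈ A, ∀ Y ∈ A, X ∪ Y ∈ A) →
      A ≠ (A.sup id).powerset →
      2 ^ (k + 1) * (2 ^ (A.sup id).card - A.card) < 2 ^ (A.sup id).card →
      k ≤ ((A.sup id).filter (fun x => A.card < 2 * (A.filter (fun S => x ∈ S)).card)).card) ∧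
    (∀ A : Finset (Finset ℕ), (∀ X ∈ A, ∀ Y ∈ A, X ∪ Y ∈ A) →
      A ≠ (A.sup id).powerset →
      5 * 2 ^ (A.sup id).card < 6 * A.card →
      2 ≤ ((A.sup id).filter (fun x => A.card < 2 * (A.filter (fun S => x ∈ S)).card)).card) ∧
    (∀ k : ℕ, 1 ≤ k → ∃ A : Finset (Finset ℕ), (∀ X ∈ A, ∀ Y ∈ A, X ∪ Y ∈ A) ∧
      A ≠ (A.sup id).powerset ∧
      2 ^ (k + 1) * (2 ^ (A.sup id).card - A.card) = 2 ^ (A.sup id).card ∧
      ((A.sup id).filter (fun x => A.card < 2 * (A.filter (fun S => x ∈ S)).card)).card = k) :=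
  ⟨fun k A huc hne hd => Pool.Agent.H637R4.Many.many k A huc hne hd,
    fun A huc hne hd => Pool.Agent.H637R4.Many.two A huc hne hd,
    fun k hk => Pool.Agent.H637R4.Many.sharp k hk⟩

end Pool.Agent.Results.MP_caa27d_co.DenseFamilies
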