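import Mathlib
import Pool.Agent.H200R3.ManyFrequent

set_option autoImplicit false

/-!
# The number of frequent elements of a union-closed family

For every `θ < (3 - √5) / 2 = 0.381...`, a union-closed family `A` has at least
`(1 - (√5 - 1) / (2 (1 - θ))) log₂ |A|` elements lying in at least `θ |A|` members.
-/

namespace Pool.Agent.Results.MP_caa27d_co.FrequentCount

/-- The factor `1 - (√5 - 1) / (2 (1 - θ))` is positive exactly for `θ < (3 - √5) / 2`. -/
theorem result (A : Finset (Finset ℕ)) (hU : ∀ X ∈ A, ∀ Y ∈ A, X ∪ Y ∈ A) (θ : ℝ)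
    (hθ : θ < (3 - √5) / 2) :
    (1 - (√5 - 1) / (2 * (1 - θ))) * Real.logb 2 A.card ≤
      (((A.sup id).filter (fun x => θ * A.card ≤ (A.filter (fun S => x ∈ S)).card)).card : ℝ) := by
  have h5 := Pool.Agent.H634R3.UC.sqrt5_lb
  exact Pool.Agent.H200R3.Many.manyFrequent A hU θ (by linarith)

end Pool.Agent.Results.MP_caa27d_co.FrequentCount
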