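import Mathlib
import Pool.Agent.H200R3.ManyExplicit

set_option autoImplicit false

/-!
# Many abundant elements in union-closed families with few members

Call two elements of the universe of `A` equivalent if they lie in the same members, and let `n` be
the number of classes.  If `A` is union-closed, `n ≥ 2 ^ (10 k)` and `A` has at most `10 n / 3`
members, then at least `k` elements lie in more than half of the members.
-/

namespace Pool.Agent.Results.MP_caa27d_co.ManyAbundant

theorem result (k : ℕ) (A : Finset (Finset ℕ)) (hU : ∀ X ∈ A, ∀ Y ∈ A, X ∪ Y ∈ A)
    (hn : 2 ^ (10 * k) ≤ ((A.sup id).image (fun x => A.filter (fun S => x ∈ S))).card)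
    (hm : 3 * A.card ≤ 10 * ((A.sup id).image (fun x => A.filter (fun S => x ∈ S))).card) :
    k ≤ ((A.sup id).filter (fun x => A.card < 2 * (A.filter (fun S => x ∈ S)).card)).card :=
  Pool.Agent.H200R3.Many.manyExplicit k A hU hn hm

end Pool.Agent.Results.MP_caa27d_co.ManyAbundant
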